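import Pool.Agent.H664Z.Ball.IntNear

open scoped Topology ENNReal InnerProductSpace
open Filter Metric Set MeasureTheory

namespace Pool.Agent.H809Z.Ball

namespace IntAbs

/-- abstract absorption lemma -/
lemma absorb_abs {X : Type*} [MeasurableSpace X] (ν : Measure X) [SFinite ν] (s : Set X)
    (hs : ∀ᵐ w ∂ν, w ∈ s) (K : X → X → ℝ≥0∞) (hK : Measurable (Function.uncurry K))
    (hsym : ∀ a w, K a w = K w a) (hK2 : ∀ a ∈ s, ∫⁻ w, K a w ∂ν ≤ 2⁻¹)
    (J : X → ℝ≥0∞) (hJ : AEMeasurable J ν) (hJi : ∫⁻ w, J w ∂ν ≠ ∞) (C0 : ℝ≥0∞)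
    (h : ∀ a ∈ s, J a ≤ ∫⁻ w, K a w * J w ∂ν + C0) : ∀ a ∈ s, J a ≤ 2 * C0 := by
  set g : X → ℝ≥0∞ := fun w => J w - 2 * C0 with hg
  have hgm : AEMeasurable g ν := hJ.sub_const _
  have hKa : ∀ a, Measurable (K a) := fun a => hK.of_uncurry_left
  have h1 : ∀ a ∈ s, g a ≤ ∫⁻ w, K a w * g w ∂ν := by
    intro a ha
    rw [hg]
    simp only
    rw [tsub_le_iff_right]
    calc J a ≤ ∫⁻ w, K a w * J w ∂ν + C0 := h a ha
      _ ≤ ∫⁻ w, (K a w * g w + K a w * (2 * C0)) ∂ν + C0 := by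
          refine add_le_add_left (lintegral_mono fun w => ?_) _
          rw [← mul_add]
          exact mul_le_mul_right le_tsub_add _
      _ = ∫⁻ w, K a w * g w ∂ν + (∫⁻ w, K a w ∂ν) * (2 * C0) + C0 := by
          rw [lintegral_add_right _ ((hKa a).mul_const _), lintegral_mul_const _ (hKa a)]
      _ ≤ ∫⁻ w, K a w * g w ∂ν + 2⁻¹ * (2 * C0) + C0 := by
          gcongr
          exact hK2 a ha
      _ = ∫⁻ w, K a w * g w ∂ν + 2 * C0 := by
          rw [← mul_assoc, ENNReal.inv_mul_cancel (by norm_num) (by norm_num), one_mul, add_assoc,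
            two_mul]
  have hgi : ∫⁻ w, g w ∂ν ≠ ∞ :=
    ne_top_of_le_ne_top hJi (lintegral_mono fun w => tsub_le_self)
  have h2 : ∫⁻ a, g a ∂ν ≤ 2⁻¹ * ∫⁻ a, g a ∂ν := by
    calc ∫⁻ a, g a ∂ν ≤ ∫⁻ a, ∫⁻ w, K a w * g w ∂ν ∂ν := by
          refine lintegral_mono_ae ?_
          filter_upwards [hs] with a ha using h1 a ha
      _ = ∫⁻ w, ∫⁻ a, K a w * g w ∂ν ∂ν :=
          lintegral_lintegral_swap (hK.aemeasurable.mul hgm.comp_snd)
      _ ≤ ∫⁻ w, 2⁻¹ * g w ∂ν := by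
          refine lintegral_mono_ae ?_
          filter_upwards [hs] with w hw
          simp only [hsym _ w]
          rw [lintegral_mul_const _ (hKa w)]
          exact mul_le_mul_left (hK2 w hw) _
      _ = 2⁻¹ * ∫⁻ a, g a ∂ν := lintegral_const_mul'' _ hgm
  have h3 : ∫⁻ a, g a ∂ν = 0 := by
    by_contra hne
    have := ENNReal.half_lt_self hne hgi
    rw [ENNReal.div_eq_inv_mul] at this
    exact absurd h2 (not_le.2 this)
  have h4 : g =ᵐ[ν] 0 := (lintegral_eq_zero_iff' hgm).1 h3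
  intro a ha
  have h5 : ∫⁻ w, K a w * g w ∂ν = 0 := by
    rw [← lintegral_zero (μ := ν)]
    refine lintegral_congr_ae ?_
    filter_upwards [h4] with w hw
    simp [hw]
  have h6 := h1 a ha
  rw [h5, hg] at h6
  simp only at h6
  rw [tsub_le_iff_right, zero_add] at h6
  exact h6

lemma norm_ker {n : ℕ} (a w : En n) : ‖ker a w‖ = (dd a w ^ (n + 1))⁻¹ := by
  simp [ker, dd]

end IntAbs

open IntAbs in
theorem absorb {n : ℕ} (j : En n → ℂ) (hc : ContinuousOn j (ball 0 1))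
    (hi : IntegrableOn j (ball 0 1)) (hr : Rep j j) :
    ∃ B : ℝ, ∀ w ∈ ball (0 : En n) 1, ‖j w‖ ≤ B := by
  obtain ⟨C, μ, hC, -, hμ, hrep⟩ := hr
  obtain ⟨Cn, hCn, hnear⟩ := int_near n n (by linarith)
  set ε : ℝ := 1 / (2 * (C * Cn + 1)) with hε
  have hε0 : 0 < ε := by positivity
  have hεC : C * (Cn * ε) ≤ 2⁻¹ := by
    have h0 : 0 < C * Cn + 1 := by positivity
    rw [hε, ← mul_assoc, mul_one_div, div_le_iff₀ (by positivity)]
    nlinarith
  set ν : Measure (En n) := volume.restrict (ball 0 1) with hν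
  set K : En n → En n → ℝ≥0∞ := fun a w =>
    if dd a w < ε then ENNReal.ofReal C * ENNReal.ofReal (dd a w ^ (-(n : ℝ))) else 0 with hK
  have hdd : Continuous fun p : En n × En n => dd p.1 p.2 := by
    unfold dd; fun_prop
  have hKm : Measurable (Function.uncurry K) := by
    refine Measurable.ite (measurableSet_lt hdd.measurable measurable_const) ?_ measurable_const
    exact ((hdd.measurable.pow_const _).ennreal_ofReal).const_mul _
  have hsym : ∀ a w, K a w = K w a := by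
    intro a w
    simp only [hK, dd_comm a w]
  have hK2 : ∀ a ∈ ball (0 : En n) 1, ∫⁻ w, K a w ∂ν ≤ 2⁻¹ := by
    intro a ha
    rw [mem_ball_zero_iff] at ha
    have hm : MeasurableSet {w : En n | dd a w < ε} :=
      measurableSet_lt (continuous_dd a).measurable measurable_const
    have e1 : K a = indicator {w : En n | dd a w < ε}
        (fun w => ENNReal.ofReal C * ENNReal.ofReal (dd a w ^ (-(n : ℝ)))) := by
      funext w
      simp only [hK, indicator, mem_setOf_eq]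
    have e2 : {w : En n | dd a w < ε} ∩ ball 0 1 = {w : En n | ‖w‖ < 1 ∧ dd a w < ε} := by
      ext w
      simp [and_comm]
    rw [e1, lintegral_indicator hm, hν, Measure.restrict_restrict hm, e2,
      lintegral_const_mul' _ _ ENNReal.ofReal_ne_top]
    calc _ ≤ ENNReal.ofReal C * ENNReal.ofReal (Cn * ε ^ ((n : ℝ) + 1 - n)) :=
          mul_le_mul_right (hnear a ha.le ε hε0) _
      _ = ENNReal.ofReal (C * (Cn * ε)) := by
          rw [← ENNReal.ofReal_mul hC, add_sub_cancel_left, Real.rpow_one]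
      _ ≤ ENNReal.ofReal 2⁻¹ := ENNReal.ofReal_le_ofReal hεC
      _ = 2⁻¹ := by rw [ENNReal.ofReal_inv_of_pos (by norm_num)]; simp
  have hJ : AEMeasurable (fun w => ‖j w‖ₑ) ν :=
    (hc.aestronglyMeasurable measurableSet_ball).enorm
  have hJi : ∫⁻ w, ‖j w‖ₑ ∂ν ≠ ∞ := hi.2.ne
  set D : ℝ≥0∞ := ENNReal.ofReal C * ENNReal.ofReal (ε ^ (-(n : ℝ))) with hD
  have hDt : D ≠ ∞ := ENNReal.mul_ne_top ENNReal.ofReal_ne_top ENNReal.ofReal_ne_top
  have hmain : ∀ a ∈ ball (0 : En n) 1,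
      ‖j a‖ₑ ≤ ∫⁻ w, K a w * ‖j w‖ₑ ∂ν + D * ∫⁻ w, ‖j w‖ₑ ∂ν := by
    intro a ha
    have ha' := mem_ball_zero_iff.1 ha
    calc ‖j a‖ₑ = ‖∫ w, μ w * ker a w ∂ν‖ₑ := by rw [hrep a ha]; rfl
      _ ≤ ∫⁻ w, ‖μ w * ker a w‖ₑ ∂ν := enorm_integral_le_lintegral_enorm _
      _ ≤ ∫⁻ w, (K a w * ‖j w‖ₑ + D * ‖j w‖ₑ) ∂ν := by
          refine lintegral_mono_ae ?_
          filter_upwards [ae_restrict_mem measurableSet_ball] with w hw
          have hw' := mem_ball_zero_iff.1 hw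
          have hp := dd_pos ha'.le hw'
          have h1 : ‖μ w * ker a w‖ ≤ C * dd a w ^ (-(n : ℝ)) * ‖j w‖ := by
            rw [norm_mul, norm_ker, Real.rpow_neg hp.le, Real.rpow_natCast]
            have h2 : ‖μ w‖ ≤ C * ‖j w‖ * dd a w :=
              (hμ w hw).trans (mul_le_mul_of_nonneg_left (depth_le_dd ha'.le) (by positivity))
            calc ‖μ w‖ * (dd a w ^ (n + 1))⁻¹ ≤ C * ‖j w‖ * dd a w * (dd a w ^ (n + 1))⁻¹ :=
                  mul_le_mul_of_nonneg_right h2 (by positivity)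
              _ = _ := by rw [pow_succ]; field_simp
          have h3 : ‖μ w * ker a w‖ₑ ≤
              ENNReal.ofReal C * ENNReal.ofReal (dd a w ^ (-(n : ℝ))) * ‖j w‖ₑ := by
            rw [← ofReal_norm_eq_enorm, ← ofReal_norm_eq_enorm, ← ENNReal.ofReal_mul hC,
              ← ENNReal.ofReal_mul (by positivity)]
            exact ENNReal.ofReal_le_ofReal h1
          refine h3.trans ?_
          by_cases hlt : dd a w < ε
          · simp only [hK, if_pos hlt]
            exact le_self_add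
          · refine le_trans ?_ le_add_self
            refine mul_le_mul_left (mul_le_mul_right (ENNReal.ofReal_le_ofReal ?_) _) _
            exact Real.rpow_le_rpow_of_nonpos hε0 (not_lt.1 hlt) (by simp)
      _ = _ := by
          rw [lintegral_add_right' _ (hJ.const_mul _), lintegral_const_mul'' _ hJ]
  have hfin := absorb_abs ν (ball 0 1) (ae_restrict_mem measurableSet_ball) K hKm hsym hK2
    (fun w => ‖j w‖ₑ) hJ hJi _ hmain
  have ht : 2 * (D * ∫⁻ w, ‖j w‖ₑ ∂ν) ≠ ∞ :=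
    ENNReal.mul_ne_top (by norm_num) (ENNReal.mul_ne_top hDt hJi)
  refine ⟨(2 * (D * ∫⁻ w, ‖j w‖ₑ ∂ν)).toReal, fun w hw => ?_⟩
  have := ENNReal.toReal_mono ht (hfin w hw)
  simpa using this

end Pool.Agent.H809Z.Ball
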