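import Pool.Agent.H809Z.Ball.Defs

open scoped Topology ENNReal InnerProductSpace
open Filter Metric Set MeasureTheory

namespace Pool.Agent.H809Z.Ball

namespace IntAbs

lemma meas_near {n : ℕ} (x : En n) (r : ℝ) :
    MeasurableSet {w : En n | ‖w‖ < 1 ∧ dd x w < r} := by
  have h1 : IsOpen {w : En n | ‖w‖ < 1} := isOpen_lt continuous_norm continuous_const
  have h2 : IsOpen {w : En n | dd x w < r} := isOpen_lt (continuous_dd x) continuous_const
  exact (h1.inter h2).measurableSet

lemma exists_shell {t r : ℝ} (ht : 0 < t) (htr : t < r) :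
    ∃ k : ℕ, r / 2 ^ (k + 1) ≤ t ∧ t < r / 2 ^ k := by
  classical
  have hr : 0 < r := ht.trans htr
  have hex : ∃ k : ℕ, r / 2 ^ (k + 1) ≤ t := by
    obtain ⟨k, hk⟩ := pow_unbounded_of_one_lt (r / t) (by norm_num : (1 : ℝ) < 2)
    refine ⟨k, ?_⟩
    rw [div_le_iff₀ (by positivity)]
    rw [div_lt_iff₀ ht] at hk
    have : (0 : ℝ) < 2 ^ k := by positivity
    rw [pow_succ]
    nlinarith
  refine ⟨Nat.find hex, Nat.find_spec hex, ?_⟩
  rcases h : Nat.find hex with _ | k
  · simpa using htr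
  · have := Nat.find_min hex (m := k) (by omega)
    exact not_le.1 this

end IntAbs

open IntAbs in
theorem int_near (n : ℕ) : IntNear n := by
  intro a ha
  obtain ⟨C, hC, hvol⟩ := vol_kor n
  rcases le_or_gt a 0 with ha0 | ha0
  · refine ⟨C, hC.le, fun x hx r hr => ?_⟩
    calc ∫⁻ w in {w : En n | ‖w‖ < 1 ∧ dd x w < r}, ENNReal.ofReal (dd x w ^ (-a))
        ≤ ∫⁻ _ in {w : En n | ‖w‖ < 1 ∧ dd x w < r}, ENNReal.ofReal (r ^ (-a)) := by
          refine setLIntegral_mono' (meas_near x r) fun w hw => ?_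
          exact ENNReal.ofReal_le_ofReal
            (Real.rpow_le_rpow (dd_nonneg x w) hw.2.le (by linarith))
      _ = ENNReal.ofReal (r ^ (-a)) * volume {w : En n | ‖w‖ < 1 ∧ dd x w < r} := by
          rw [setLIntegral_const]
      _ ≤ ENNReal.ofReal (r ^ (-a)) * ENNReal.ofReal (C * r ^ (n + 1)) :=
          mul_le_mul_right (hvol x hx r hr) _
      _ = ENNReal.ofReal (C * r ^ ((n : ℝ) + 1 - a)) := by
          rw [← ENNReal.ofReal_mul (Real.rpow_nonneg hr.le _)]
          congr 1
          rw [sub_eq_add_neg, Real.rpow_add hr, ← Real.rpow_natCast]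
          push_cast
          ring
  · set q : ℝ := 2 ^ (-((n : ℝ) + 1 - a)) with hq
    have hq0 : 0 < q := by positivity
    have hq1 : q < 1 := Real.rpow_lt_one_of_one_lt_of_neg (by norm_num) (by linarith)
    refine ⟨C * 2 ^ a * (1 - q)⁻¹, by have : 0 < 1 - q := by linarith
                                      positivity, fun x hx r hr => ?_⟩
    set S : ℕ → Set (En n) := fun k =>
      {w : En n | ‖w‖ < 1 ∧ dd x w < r / 2 ^ k} ∩ {w | r / 2 ^ (k + 1) ≤ dd x w} with hS
    have hsub : {w : En n | ‖w‖ < 1 ∧ dd x w < r} ⊆ ⋃ k, S k := by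
      intro w hw
      obtain ⟨k, h1, h2⟩ := exists_shell (dd_pos hx hw.1) hw.2
      exact mem_iUnion.2 ⟨k, ⟨hw.1, h2⟩, h1⟩
    have hSm : ∀ k, MeasurableSet (S k) := fun k =>
      (meas_near x _).inter (isClosed_le continuous_const (continuous_dd x)).measurableSet
    have hk : ∀ k, ∫⁻ w in S k, ENNReal.ofReal (dd x w ^ (-a)) ≤
        ENNReal.ofReal (C * 2 ^ a * r ^ ((n : ℝ) + 1 - a) * q ^ k) := by
      intro k
      have hp : 0 < r / 2 ^ (k + 1) := by positivity
      have hp' : 0 < r / 2 ^ k := by positivity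
      calc ∫⁻ w in S k, ENNReal.ofReal (dd x w ^ (-a))
          ≤ ∫⁻ _ in S k, ENNReal.ofReal ((r / 2 ^ (k + 1)) ^ (-a)) := by
            refine setLIntegral_mono' (hSm k) fun w hw => ?_
            exact ENNReal.ofReal_le_ofReal
              (Real.rpow_le_rpow_of_nonpos hp hw.2 (by linarith))
        _ = ENNReal.ofReal ((r / 2 ^ (k + 1)) ^ (-a)) * volume (S k) := by
            rw [setLIntegral_const]
        _ ≤ ENNReal.ofReal ((r / 2 ^ (k + 1)) ^ (-a)) *
              ENNReal.ofReal (C * (r / 2 ^ k) ^ (n + 1)) :=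
            mul_le_mul_right ((measure_mono inter_subset_left).trans (hvol x hx _ hp')) _
        _ = ENNReal.ofReal (C * 2 ^ a * r ^ ((n : ℝ) + 1 - a) * q ^ k) := by
            rw [← ENNReal.ofReal_mul (Real.rpow_nonneg hp.le _)]
            congr 1
            have e1 : r / 2 ^ (k + 1) = (r / 2 ^ k) / 2 := by rw [pow_succ]; field_simp
            have e2 : ((r / 2 ^ k) / 2) ^ (-a) = (r / 2 ^ k) ^ (-a) * 2 ^ a := by
              rw [Real.div_rpow hp'.le (by norm_num), Real.rpow_neg (by norm_num : (0 : ℝ) ≤ 2),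
                div_inv_eq_mul]
            have e3 : (r / 2 ^ k) ^ (-a) * (r / 2 ^ k) ^ (n + 1) =
                (r / 2 ^ k) ^ ((n : ℝ) + 1 - a) := by
              rw [sub_eq_add_neg, Real.rpow_add hp', ← Real.rpow_natCast (r / 2 ^ k) (n + 1)]
              push_cast
              ring
            have e4 : (r / 2 ^ k) ^ ((n : ℝ) + 1 - a) = r ^ ((n : ℝ) + 1 - a) * q ^ k := by
              rw [Real.div_rpow hr.le (by positivity), hq, ← Real.rpow_natCast,
                ← Real.rpow_natCast, ← Real.rpow_mul (by norm_num), ← Real.rpow_mul (by norm_num),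
                div_eq_mul_inv, ← Real.rpow_neg (by norm_num)]
              congr 2
              ring
            rw [e1, e2]
            calc (r / 2 ^ k) ^ (-a) * 2 ^ a * (C * (r / 2 ^ k) ^ (n + 1))
                = C * 2 ^ a * ((r / 2 ^ k) ^ (-a) * (r / 2 ^ k) ^ (n + 1)) := by ring
              _ = _ := by rw [e3, e4]; ring
    have hK : 0 ≤ C * 2 ^ a * r ^ ((n : ℝ) + 1 - a) := by positivity
    calc ∫⁻ w in {w : En n | ‖w‖ < 1 ∧ dd x w < r}, ENNReal.ofReal (dd x w ^ (-a))
        ≤ ∫⁻ w in ⋃ k, S k, ENNReal.ofReal (dd x w ^ (-a)) := lintegral_mono_set hsub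
      _ ≤ ∑' k, ∫⁻ w in S k, ENNReal.ofReal (dd x w ^ (-a)) := lintegral_iUnion_le _ _
      _ ≤ ∑' k : ℕ, ENNReal.ofReal (C * 2 ^ a * r ^ ((n : ℝ) + 1 - a) * q ^ k) :=
          ENNReal.tsum_le_tsum hk
      _ = ENNReal.ofReal (∑' k : ℕ, C * 2 ^ a * r ^ ((n : ℝ) + 1 - a) * q ^ k) :=
          (ENNReal.ofReal_tsum_of_nonneg (fun k => by positivity)
            ((summable_geometric_of_lt_one hq0.le hq1).mul_left _)).symm
      _ = _ := by
          rw [tsum_mul_left, tsum_geometric_of_lt_one hq0.le hq1]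
          congr 1
          ring

end Pool.Agent.H809Z.Ball
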